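import Mathlib

/-!
# Places of a number field above `p`, seen through embeddings into the algebraic closure of the
# field of `p`-adic numbers
-/

set_option autoImplicit false

namespace Pool.Agent.W902.TB

open Polynomial NumberField

variable {p : ℕ} [Fact p.Prime]

theorem norm_alg (τ : PadicAlgCl p ≃ₐ[ℚ_[p]] PadicAlgCl p) (x : PadicAlgCl p) :
    ‖τ x‖ = ‖x‖ := by
  rw [← PadicAlgCl.spectralNorm_eq, ← PadicAlgCl.spectralNorm_eq]
  exact (spectralNorm_eq_of_equiv τ x).symm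

/-- If two algebraic numbers satisfy the same norm equalities for all rational polynomials then
they are conjugate. -/
theorem conj_of_norm (a b : PadicAlgCl p)
    (h : ∀ P : ℚ[X], ‖aeval a P‖ = ‖aeval b P‖) :
    ∃ τ : PadicAlgCl p ≃ₐ[ℚ_[p]] PadicAlgCl p, τ a = b := by
  have hint : IsIntegral ℚ_[p] a := Algebra.IsIntegral.isIntegral a
  set P := minpoly ℚ_[p] a with hP
  set n := P.natDegree with hn
  let F : PadicAlgCl p → (Fin (n + 1) → ℚ_[p]) → ℝ := fun x c =>
    ‖∑ i : Fin (n + 1), algebraMap ℚ_[p] (PadicAlgCl p) (c i) * x ^ (i : ℕ)‖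
  have hcont : ∀ x, Continuous (F x) := by
    intro x
    refine continuous_norm.comp (continuous_finsetSum _ fun i _ => ?_)
    exact ((continuous_algebraMap ℚ_[p] (PadicAlgCl p)).comp (continuous_apply i)).mul
      continuous_const
  have hd : DenseRange (Pi.map (fun _ : Fin (n + 1) => ((↑) : ℚ → ℚ_[p]))) :=
    DenseRange.piMap fun _ => Padic.denseRange_ratCast p
  have hF : F a = F b := by
    refine hd.equalizer (hcont a) (hcont b) ?_
    funext q
    simp only [Function.comp_apply, F, Pi.map_apply]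
    have h1 := h (∑ i : Fin (n + 1), C (q i) * X ^ (i : ℕ))
    simp only [map_sum, map_mul, aeval_C, map_pow, aeval_X] at h1
    have h2 : ∀ r : ℚ, algebraMap ℚ_[p] (PadicAlgCl p) (r : ℚ_[p]) =
        algebraMap ℚ (PadicAlgCl p) r := by
      intro r
      rw [map_ratCast, eq_ratCast]
    simp only [h2]
    exact h1
  have h3 : ∀ x : PadicAlgCl p, F x (fun i => P.coeff i) = ‖aeval x P‖ := by
    intro x
    simp only [F]
    rw [aeval_eq_sum_range, ← hn, ← Fin.sum_univ_eq_sum_range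
      (fun i => P.coeff i • x ^ i) (n + 1)]
    simp only [Algebra.smul_def]
  have h4 : aeval b P = 0 := by
    rw [← norm_eq_zero, ← h3, ← hF, h3, hP, minpoly.aeval, norm_zero]
  have h5 : P = minpoly ℚ_[p] b :=
    minpoly.eq_of_irreducible_of_monic (minpoly.irreducible hint) h4 (minpoly.monic hint)
  have h6 : IsConjRoot ℚ_[p] b a := by
    rw [isConjRoot_def, ← h5]
  obtain ⟨τ, hτ⟩ := isConjRoot_iff_exists_algEquiv.1 h6
  exact ⟨τ, hτ⟩

variable {L : Type} [Field L] [NumberField L]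

theorem alg_of_norm (e e' : L →+* PadicAlgCl p) (h : ∀ x, ‖e x‖ = ‖e' x‖) :
    ∃ τ : PadicAlgCl p ≃ₐ[ℚ_[p]] PadicAlgCl p, ∀ x, e' x = τ (e x) := by
  let pb := Field.powerBasisOfFiniteOfSeparable ℚ L
  let f : L →ₐ[ℚ] PadicAlgCl p := RingHom.toRatAlgHom e
  let f' : L →ₐ[ℚ] PadicAlgCl p := RingHom.toRatAlgHom e'
  obtain ⟨τ, hτ⟩ := conj_of_norm (f pb.gen) (f' pb.gen) (by
    intro P
    rw [aeval_algHom_apply, aeval_algHom_apply]
    exact h _)
  refine ⟨τ, ?_⟩
  let g : L →ₐ[ℚ] PadicAlgCl p :=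
    RingHom.toRatAlgHom ((τ : PadicAlgCl p →+* PadicAlgCl p).comp e)
  have : f' = g := pb.algHom_ext hτ.symm
  intro x
  exact DFunLike.congr_fun this x

theorem norm_le_one_of_isIntegral (y : PadicAlgCl p) (hy : IsIntegral ℤ y) : ‖y‖ ≤ 1 := by
  by_contra hlt
  rw [not_le] at hlt
  obtain ⟨g, hg, h0⟩ := hy
  have h1 : y ^ g.natDegree =
      - ∑ i ∈ Finset.range g.natDegree, (g.coeff i : PadicAlgCl p) * y ^ i := by
    rw [eval₂_eq_sum_range, Finset.sum_range_succ, hg.coeff_natDegree] at h0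
    simp only [eq_intCast, Int.cast_one, one_mul] at h0
    rw [eq_neg_iff_add_eq_zero, add_comm]
    exact h0
  have hint : ∀ i : ℕ, ‖(g.coeff i : PadicAlgCl p)‖ ≤ 1 := by
    intro i
    have h4 : ((g.coeff i : ℤ) : PadicAlgCl p) =
        algebraMap ℚ_[p] (PadicAlgCl p) ((g.coeff i : ℤ) : ℚ_[p]) := by
      simp
    rw [h4, PadicAlgCl.norm_extends]
    exact Padic.norm_int_le_one _
  have h2 : ‖y ^ g.natDegree‖ < ‖y ^ g.natDegree‖ := by
    conv_lhs => rw [h1, norm_neg]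
    have hpos : (0 : ℝ) < ‖y ^ g.natDegree‖ := by
      rw [norm_pow]
      exact pow_pos (zero_lt_one.trans hlt) _
    rcases Finset.eq_empty_or_nonempty (Finset.range g.natDegree) with hem | hne
    · rw [hem, Finset.sum_empty, norm_zero]
      exact hpos
    · obtain ⟨i, hi, hmax⟩ := IsUltrametricDist.exists_norm_finsetSum_le_of_nonempty hne
        (fun i => (g.coeff i : PadicAlgCl p) * y ^ i)
      refine hmax.trans_lt ?_
      rw [norm_mul, norm_pow, norm_pow]
      calc ‖(g.coeff i : PadicAlgCl p)‖ * ‖y‖ ^ i ≤ 1 * ‖y‖ ^ i :=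
            mul_le_mul_of_nonneg_right (hint i) (pow_nonneg (norm_nonneg _) _)
        _ = ‖y‖ ^ i := one_mul _
        _ < ‖y‖ ^ g.natDegree := pow_lt_pow_right₀ hlt (Finset.mem_range.1 hi)
  exact lt_irrefl _ h2

/-- the restriction of an embedding to the ring of integers -/
noncomputable def er (e : L →+* PadicAlgCl p) : 𝓞 L →+* PadicAlgCl p :=
  e.comp (algebraMap (𝓞 L) L)

omit [NumberField L] in
theorem norm_int_le (e : L →+* PadicAlgCl p) (x : 𝓞 L) : ‖er e x‖ ≤ 1 :=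
  norm_le_one_of_isIntegral _ ((NumberField.RingOfIntegers.isIntegral_coe x).map
    (e : L →+* PadicAlgCl p).toIntAlgHom)

/-- the prime ideal below the place of an embedding -/
noncomputable def idl (e : L →+* PadicAlgCl p) : Ideal (𝓞 L) where
  carrier := {x | ‖er e x‖ < 1}
  zero_mem' := by simp
  add_mem' := by
    intro a b ha hb
    simp only [Set.mem_ofPred_eq] at ha hb ⊢
    rw [map_add]
    exact (PadicAlgCl.isNonarchimedean p _ _).trans_lt (max_lt ha hb)
  smul_mem' := by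
    intro c x hx
    simp only [Set.mem_ofPred_eq, smul_eq_mul] at hx ⊢
    rw [map_mul, norm_mul]
    calc ‖er e c‖ * ‖er e x‖ ≤ 1 * ‖er e x‖ :=
          mul_le_mul_of_nonneg_right (norm_int_le e c) (norm_nonneg _)
      _ < 1 := by rw [one_mul]; exact hx

omit [NumberField L] in
theorem mem_idl (e : L →+* PadicAlgCl p) (x : 𝓞 L) : x ∈ idl e ↔ ‖er e x‖ < 1 := Iff.rfl

omit [NumberField L] in
theorem not_mem_idl (e : L →+* PadicAlgCl p) (x : 𝓞 L) : x ∉ idl e ↔ ‖er e x‖ = 1 := by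
  rw [mem_idl, not_lt]
  exact ⟨fun h => le_antisymm (norm_int_le e x) h, fun h => h.ge⟩

omit [NumberField L] in
theorem idl_prime (e : L →+* PadicAlgCl p) : (idl e).IsPrime := by
  refine ⟨?_, ?_⟩
  · intro h
    have : (1 : 𝓞 L) ∈ idl e := by rw [h]; trivial
    rw [mem_idl] at this
    simp at this
  · intro x y hxy
    by_contra hc
    rw [not_or, not_mem_idl, not_mem_idl] at hc
    rw [mem_idl, map_mul, norm_mul, hc.1, hc.2] at hxy
    norm_num at hxy

theorem norm_p : ‖(p : PadicAlgCl p)‖ < 1 := by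
  have h4 : (p : PadicAlgCl p) = algebraMap ℚ_[p] (PadicAlgCl p) (p : ℚ_[p]) := by simp
  rw [h4, PadicAlgCl.norm_extends]
  exact Padic.norm_p_lt_one

omit [NumberField L] in
theorem p_mem (e : L →+* PadicAlgCl p) : (p : 𝓞 L) ∈ idl e := by
  rw [mem_idl, map_natCast]
  exact norm_p

theorem idl_ne (e : L →+* PadicAlgCl p) : idl e ≠ ⊥ := by
  intro h
  have h1 := p_mem e
  rw [h, Ideal.mem_bot] at h1
  have : (p : 𝓞 L) ≠ 0 := Nat.cast_ne_zero.2 (Fact.out : p.Prime).ne_zero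
  exact this h1

theorem idl_max (e : L →+* PadicAlgCl p) : (idl e).IsMaximal :=
  (idl_prime e).isMaximal (idl_ne e)

/-- for integral `x`, a power of `x` is a power of `β` times a unit at the place -/
theorem norm_pow_eq (e e' : L →+* PadicAlgCl p) (he : idl e = idl e') (h : ℕ)
    (β : 𝓞 L) (hβ : idl e ^ h = Ideal.span {β}) (x : 𝓞 L) (hx : x ≠ 0) :
    ∃ k : ℕ, ‖er e x‖ ^ h = ‖er e β‖ ^ k ∧ ‖er e' x‖ ^ h = ‖er e' β‖ ^ k := by
  have := idl_prime e
  have hirr : Irreducible (idl e) :=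
    (Ideal.prime_of_isPrime (idl_ne e) (idl_prime e)).irreducible
  obtain ⟨k, J, hJ, hxJ⟩ := WfDvdMonoid.max_power_factor
    (a₀ := Ideal.span {x}) (by
      rw [Ideal.zero_eq_bot, Ne, Ideal.span_singleton_eq_bot]
      exact hx) hirr
  have hβ0 : β ≠ 0 := by
    rintro rfl
    have : idl e ^ h = ⊥ := by rw [hβ]; simp
    exact pow_ne_zero h (idl_ne e) this
  have h1 : Ideal.span {x ^ h} = Ideal.span {β ^ k} * J ^ h := by
    rw [← Ideal.span_singleton_pow, hxJ, mul_pow, ← pow_mul, mul_comm k h, pow_mul, hβ,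
      Ideal.span_singleton_pow]
  have h2 : x ^ h ∈ Ideal.span {β ^ k} := by
    have : Ideal.span {β ^ k} * J ^ h ≤ Ideal.span {β ^ k} := Ideal.mul_le_left
    exact this (h1 ▸ Ideal.mem_span_singleton_self _)
  obtain ⟨c, hc⟩ := Ideal.mem_span_singleton.1 h2
  have h3 : Ideal.span {c} = J ^ h := by
    have h4 : Ideal.span {β ^ k} * Ideal.span {c} = Ideal.span {β ^ k} * J ^ h := by
      rw [Ideal.span_singleton_mul_span_singleton, ← hc, h1]
    exact mul_left_cancel₀ (by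
      rw [Ideal.zero_eq_bot, Ne, Ideal.span_singleton_eq_bot]
      exact pow_ne_zero _ hβ0) h4
  have h5 : c ∉ idl e := by
    intro hcm
    have h6 : J ^ h ≤ idl e := by
      rw [← h3, Ideal.span_le, Set.singleton_subset_iff]
      exact hcm
    exact hJ (Ideal.dvd_iff_le.2 (Ideal.IsPrime.le_of_pow_le h6))
  have h6 : ‖er e c‖ = 1 := (not_mem_idl e c).1 h5
  have h7 : ‖er e' c‖ = 1 := (not_mem_idl e' c).1 (he ▸ h5)
  refine ⟨k, ?_, ?_⟩
  · rw [← norm_pow, ← map_pow, hc, map_mul, norm_mul, h6, mul_one, map_pow, norm_pow]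
  · rw [← norm_pow, ← map_pow, hc, map_mul, norm_mul, h7, mul_one, map_pow, norm_pow]

theorem norm_eq_of_idl (e e' : L →+* PadicAlgCl p) (he : idl e = idl e') (h : ℕ) (hh : 0 < h)
    (β : 𝓞 L) (hβ : idl e ^ h = Ideal.span {β}) (x : L) : ‖e x‖ = ‖e' x‖ := by
  have hp0 : (p : 𝓞 L) ≠ 0 := Nat.cast_ne_zero.2 (Fact.out : p.Prime).ne_zero
  obtain ⟨k, h1, h2⟩ := norm_pow_eq e e' he h β hβ (p : 𝓞 L) hp0
  rw [map_natCast] at h1 h2
  have hk : k ≠ 0 := by
    rintro rfl
    rw [pow_zero] at h1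
    exact absurd h1 (pow_lt_one₀ (norm_nonneg _) norm_p hh.ne').ne
  have h3 : ‖er e β‖ = ‖er e' β‖ :=
    (pow_left_inj₀ (norm_nonneg _) (norm_nonneg _) hk).1 (h1.symm.trans h2)
  have h4 : ∀ y : 𝓞 L, ‖er e y‖ = ‖er e' y‖ := by
    intro y
    rcases eq_or_ne y 0 with rfl | hy
    · simp
    · obtain ⟨l, h5, h6⟩ := norm_pow_eq e e' he h β hβ y hy
      refine (pow_left_inj₀ (norm_nonneg _) (norm_nonneg _) hh.ne').1 ?_
      rw [h5, h6, h3]
  obtain ⟨a, b, hb, rfl⟩ := IsFractionRing.div_surjective (A := 𝓞 L) x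
  rw [map_div₀, map_div₀, norm_div, norm_div]
  exact congrArg₂ (· / ·) (h4 a) (h4 b)

/-- the element with prescribed places -/
theorem exists_beta (e : L →+* PadicAlgCl p) :
    ∃ (β : 𝓞 L) (m : ℕ), 0 < m ∧ (Algebra.norm ℤ β).natAbs = p ^ m ∧ ‖er e β‖ < 1 ∧
      ∀ s : L ≃ₐ[ℚ] L, (∃ τ : PadicAlgCl p ≃ₐ[ℚ_[p]] PadicAlgCl p, ∀ x, e (s x) = τ (e x)) ∨
        ‖e (s β)‖ = 1 := by
  have := idl_prime e
  have hp : p.Prime := Fact.out
  set h := Fintype.card (ClassGroup (𝓞 L)) with hh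
  have hpos : 0 < h := Fintype.card_pos
  have hPm : idl e ∈ nonZeroDivisors (Ideal (𝓞 L)) := mem_nonZeroDivisors_of_ne_zero (idl_ne e)
  have hprin : (idl e ^ h).IsPrincipal := by
    rw [← ClassGroup.mk0_eq_one_iff (pow_mem hPm h)]
    have : (⟨idl e ^ h, pow_mem hPm h⟩ : nonZeroDivisors (Ideal (𝓞 L))) = ⟨idl e, hPm⟩ ^ h := rfl
    rw [this, map_pow, hh, pow_card_eq_one]
  obtain ⟨β, hβ⟩ := hprin.principal
  have hβ' : idl e ^ h = Ideal.span {β} := hβ
  obtain ⟨f, hf1, hf2⟩ : ∃ f, Ideal.absNorm (idl e) = p ^ f ∧ 0 < f := by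
    have h1 : Ideal.absNorm (idl e) ∣ Ideal.absNorm (Ideal.span {(p : 𝓞 L)}) := by
      refine Ideal.absNorm_dvd_absNorm_of_le ?_
      rw [Ideal.span_le, Set.singleton_subset_iff]
      exact p_mem e
    rw [Ideal.absNorm_span_singleton] at h1
    have h2 : (Algebra.norm ℤ (p : 𝓞 L)).natAbs = p ^ Module.finrank ℤ (𝓞 L) := by
      have h3 : (p : 𝓞 L) = algebraMap ℤ (𝓞 L) (p : ℤ) := by simp
      rw [h3, Algebra.norm_algebraMap, Int.natAbs_pow, Int.natAbs_natCast]
    rw [h2] at h1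
    obtain ⟨f, -, hf⟩ := (Nat.dvd_prime_pow hp).1 h1
    refine ⟨f, hf, ?_⟩
    rcases Nat.eq_zero_or_pos f with rfl | h0
    · rw [pow_zero, Ideal.absNorm_eq_one_iff] at hf
      exact absurd hf (idl_prime e).ne_top
    · exact h0
  have hβm : β ∈ idl e := by
    have h1 : β ∈ idl e ^ h := by rw [hβ']; exact Ideal.mem_span_singleton_self _
    exact Ideal.pow_le_self hpos.ne' h1
  refine ⟨β, f * h, Nat.mul_pos hf2 hpos, ?_, (mem_idl e β).1 hβm, ?_⟩
  · rw [← Ideal.absNorm_span_singleton, ← hβ', map_pow, hf1, ← pow_mul]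
  · intro s
    let e' : L →+* PadicAlgCl p := e.comp (s : L →+* L)
    by_cases hs : ‖er e' β‖ < 1
    · left
      have := idl_prime e'
      have := idl_max e
      have h1 : idl e ^ h ≤ idl e' := by
        rw [hβ', Ideal.span_le, Set.singleton_subset_iff]
        exact hs
      have h2 : idl e = idl e' :=
        (idl_max e).eq_of_le (idl_prime e').ne_top (Ideal.IsPrime.le_of_pow_le h1)
      obtain ⟨τ, hτ⟩ := alg_of_norm e e' (norm_eq_of_idl e e' h2 h hpos β hβ')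
      exact ⟨τ, hτ⟩
    · right
      exact le_antisymm (norm_int_le e' β) (not_lt.1 hs)

end Pool.Agent.W902.TB
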