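import Pool.Agent.W495.TB.Stms
import Pool.Agent.W902.TB.Gen

/-!
# The existence of Weil numbers with given valuations
-/

set_option autoImplicit false

namespace Pool.Agent.W902.TB

open NumberField Pool.Agent.H204R3.CM Pool.Agent.W547.KB Pool.Agent.W547.LD Module
  Pool.Agent.W495.TA

noncomputable section

variable {p : ℕ} [Fact p.Prime] {ν : PadicAlgCl p ≃+* ℂ}
  {L : Type} [Field L] [NumberField L]

/-- the embedding into the algebraic closure of the `p`-adic numbers -/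
def ee (ν : PadicAlgCl p ≃+* ℂ) (j : L →+* ℂ) : L →+* PadicAlgCl p :=
  (ν.symm : ℂ →+* PadicAlgCl p).comp j

theorem mem_Dec (j : L →+* ℂ) (s : L ≃ₐ[ℚ] L) :
    s ∈ Dec p ν j ↔
      ∃ τ : PadicAlgCl p ≃ₐ[ℚ_[p]] PadicAlgCl p, ∀ x, ee ν j (s x) = τ (ee ν j x) := by
  constructor
  · rintro ⟨τ, hτ⟩
    refine ⟨τ, fun x => ?_⟩
    change ν.symm (j (s x)) = τ (ν.symm (j x))
    rw [hτ, ν.symm_apply_apply]
  · rintro ⟨τ, hτ⟩
    refine ⟨τ, fun x => ?_⟩
    have h : ν.symm (j (s x)) = τ (ν.symm (j x)) := hτ x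
    rw [← h, ν.apply_symm_apply]

/-- the element with prescribed places -/
theorem beta (ν : PadicAlgCl p ≃+* ℂ) (j : L →+* ℂ) :
    ∃ (β : L) (m : ℕ) (ρ : ℝ), IsIntegral ℤ β ∧ 0 < m ∧
      (Algebra.norm ℚ β = (p : ℚ) ^ m ∨ Algebra.norm ℚ β = - (p : ℚ) ^ m) ∧
      (∀ s : L ≃ₐ[ℚ] L, s ∈ Dec p ν j → ‖ee ν j (s β)‖ = ρ) ∧
      ∀ s : L ≃ₐ[ℚ] L, s ∉ Dec p ν j → ‖ee ν j (s β)‖ = 1 := by
  obtain ⟨β, m, hm, hn, -, hs⟩ := exists_beta (ee ν j)
  refine ⟨β, m, ‖ee ν j β‖, β.isIntegral_coe, hm, ?_, ?_, ?_⟩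
  · have h1 : ((Algebra.norm ℤ β : ℤ) : ℚ) = Algebra.norm ℚ (β : L) := Algebra.coe_norm_int β
    rw [← h1]
    rcases Int.natAbs_eq (Algebra.norm ℤ β) with h | h
    · left
      rw [h, hn]
      push_cast
      rfl
    · right
      rw [h, hn]
      push_cast
      rfl
  · intro s hd
    obtain ⟨τ, hτ⟩ := (mem_Dec j s).1 hd
    rw [hτ, norm_alg]
  · intro s hd
    rcases hs s with h | h
    · exact absurd ((mem_Dec j s).2 h) hd
    · exact h

open Classical in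
theorem card_tf' (j : L →+* ℂ) (S : Set (L ≃ₐ[ℚ] L)) (σ : L ≃ₐ[ℚ] L) :
    (Nat.card (Dec p ν j) : ℤ) + tf p ν j S σ =
      2 * ((Finset.univ.filter fun d : L ≃ₐ[ℚ] L => d ∈ Dec p ν j ∧ d * σ ∈ S).card : ℤ) := by
  have h1 : Nat.card (Dec p ν j) = ∑ d : L ≃ₐ[ℚ] L, if d ∈ Dec p ν j then 1 else 0 := by
    rw [Nat.card_eq_fintype_card, ← Finset.card_filter]
    exact Fintype.card_subtype _
  rw [h1, Finset.card_filter, tf]
  push_cast
  rw [← Finset.sum_add_distrib, Finset.mul_sum]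
  refine Finset.sum_congr rfl fun d _ => ?_
  by_cases hd : d ∈ Dec p ν j <;> by_cases hs : d * σ ∈ S <;> simp [hd, hs]

variable [IsCMField L] [IsGalois ℚ L]

open Classical in
theorem main (hval : S_val) (j : L →+* ℂ) (S : Set (L ≃ₐ[ℚ] L)) (hS : IsHalf S) :
    ∃ (a : ℕ) (π : fld S), 0 < a ∧ IsFrobenius p ν (pairOf j S hS) a π := by
  obtain ⟨β, m, ρ, hint, hm, hnorm, hD, hnD⟩ := beta ν j
  set T : Finset (L ≃ₐ[ℚ] L) := Finset.univ.filter fun s => s⁻¹ ∈ S with hT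
  have memT : ∀ s, s ∈ T ↔ s⁻¹ ∈ S := fun s => by simp [hT]
  set α : L := ∏ s ∈ T, s β with hα
  have hccinv : (cc L)⁻¹ = cc L := inv_eq_of_mul_eq_one_left cc_cc
  -- the element lies in the field
  have hfld : α ∈ fld S := by
    rw [mem_fld]
    intro τ hτ
    rw [mem_stab] at hτ
    have h1 : ∀ σ, σ * τ ∈ S ↔ σ ∈ S := fun σ => by
      rw [← mem_tr, hτ]
    rw [hα, map_prod]
    refine Finset.prod_bij (fun s _ => τ * s) ?_ ?_ ?_ ?_
    · intro s hs
      rw [memT] at hs ⊢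
      rw [mul_inv_rev, ← h1, inv_mul_cancel_right]
      exact hs
    · intro a _ b _ h
      exact mul_left_cancel h
    · intro b hb
      refine ⟨τ⁻¹ * b, ?_, mul_inv_cancel_left _ _⟩
      rw [memT] at hb ⊢
      rw [mul_inv_rev, inv_inv, h1]
      exact hb
    · intro s _
      rfl
  -- complex conjugation
  have hcc : cc L α = ∏ s ∈ Tᶜ, s β := by
    rw [hα, map_prod]
    refine Finset.prod_bij (fun s _ => cc L * s) ?_ ?_ ?_ ?_
    · intro s hs
      rw [Finset.mem_compl, memT]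
      rw [memT] at hs
      rw [mul_inv_rev, hccinv, ← cc_comm j]
      exact (hS _).1 hs
    · intro a _ b _ h
      exact mul_left_cancel h
    · intro b hb
      refine ⟨cc L * b, ?_, by rw [← mul_assoc, cc_cc, one_mul]⟩
      rw [Finset.mem_compl, memT] at hb
      rw [memT, mul_inv_rev, hccinv, ← cc_comm j, hS, ← mul_assoc, cc_cc, one_mul]
      exact hb
    · intro s _
      rfl
  have hprod : α * cc L α = algebraMap ℚ L (Algebra.norm ℚ β) := by
    rw [hcc, hα, Finset.prod_mul_prod_compl, Algebra.norm_eq_prod_automorphisms]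
  have hsq : ∀ ψ : L →+* ℂ, ψ (α * cc L α) = ((‖ψ α‖ ^ 2 : ℝ) : ℂ) := by
    intro ψ
    rw [map_mul, emb_cc, Complex.mul_conj, Complex.normSq_eq_norm_sq]
  have hp0 : (0 : ℝ) < p := by exact_mod_cast (Fact.out : p.Prime).pos
  have hn : Algebra.norm ℚ β = (p : ℚ) ^ m := by
    rcases hnorm with h | h
    · exact h
    · exfalso
      have h1 := hsq j
      rw [hprod, h] at h1
      have h2 : j (algebraMap ℚ L (-(p : ℚ) ^ m)) = ((-(p : ℝ) ^ m : ℝ) : ℂ) := by
        simp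
      rw [h2] at h1
      have h3 : (-(p : ℝ) ^ m : ℝ) = ‖j α‖ ^ 2 := by exact_mod_cast h1
      have h4 : (0 : ℝ) < (p : ℝ) ^ m := pow_pos hp0 m
      have h5 : 0 ≤ ‖j α‖ ^ 2 := sq_nonneg _
      linarith
  have hprod' : α * cc L α = (p : L) ^ m := by
    rw [hprod, hn, map_pow, map_natCast]
  refine ⟨m, ⟨α, hfld⟩, hm, ?_⟩
  refine Pool.Agent.W417.TA.frob_pairOf j hval hS m ⟨α, hfld⟩ ?_ ?_ ?_
  · change IsIntegral ℤ α
    rw [hα]
    refine IsIntegral.prod _ fun s _ => ?_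
    exact hint.map (s.toAlgHom.restrictScalars ℤ)
  · intro ψ
    change ‖ψ α‖ ^ 2 = (p : ℝ) ^ m
    have h1 := hsq ψ
    rw [hprod', map_pow, map_natCast] at h1
    exact_mod_cast h1.symm
  · intro τ
    change ‖ee ν j (τ α)‖ ^ (2 * (Nat.card (Dec p ν j) : ℤ)) = _
    have hN : ∀ s : L ≃ₐ[ℚ] L, ‖ee ν j (s β)‖ = if s ∈ Dec p ν j then ρ else 1 := by
      intro s
      by_cases hs : s ∈ Dec p ν j
      · rw [if_pos hs, hD s hs]
      · rw [if_neg hs, hnD s hs]
    have h1 : ‖ee ν j (τ α)‖ =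
        ρ ^ (Finset.univ.filter fun d : L ≃ₐ[ℚ] L => d ∈ Dec p ν j ∧ d * τ ∈ S).card := by
      rw [hα, map_prod, map_prod, norm_prod]
      have h2 : ∀ s ∈ T, ‖ee ν j (τ (s β))‖ = if τ * s ∈ Dec p ν j then ρ else 1 :=
        fun s _ => hN (τ * s)
      rw [Finset.prod_congr rfl h2, ← Finset.prod_filter, Finset.prod_const]
      congr 1
      refine Finset.card_bij (fun s _ => (τ * s)⁻¹) ?_ ?_ ?_
      · intro s hs
        rw [Finset.mem_filter, memT] at hs
        rw [Finset.mem_filter]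
        refine ⟨Finset.mem_univ _, inv_mem hs.2, ?_⟩
        rw [mul_inv_rev, inv_mul_cancel_right]
        exact hs.1
      · intro a _ b _ h
        exact mul_left_cancel (inv_injective h)
      · intro d hd
        rw [Finset.mem_filter] at hd
        refine ⟨τ⁻¹ * d⁻¹, ?_, by rw [mul_inv_cancel_left, inv_inv]⟩
        rw [Finset.mem_filter, memT, mul_inv_cancel_left, mul_inv_rev, inv_inv, inv_inv]
        exact ⟨hd.2.2, inv_mem hd.2.1⟩
    have h3 : ‖(p : PadicAlgCl p) ^ m‖ = ρ ^ Nat.card (Dec p ν j) := by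
      have h4 : (p : PadicAlgCl p) ^ m = ee ν j (∏ s : L ≃ₐ[ℚ] L, s β) := by
        rw [← Algebra.norm_eq_prod_automorphisms, hn, map_pow, map_natCast, map_pow, map_natCast]
      rw [h4, map_prod, norm_prod, Finset.prod_congr rfl fun s _ => hN s, ← Finset.prod_filter,
        Finset.prod_const]
      congr 1
      rw [Nat.card_eq_fintype_card, Fintype.card_subtype]
    rw [h1, h3, card_tf']
    set n := (Finset.univ.filter fun d : L ≃ₐ[ℚ] L => d ∈ Dec p ν j ∧ d * τ ∈ S).card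
    set D := Nat.card (Dec p ν j)
    have e1 : (2 * (D : ℤ)) = ((2 * D : ℕ) : ℤ) := by push_cast; ring
    have e2 : (2 * (n : ℤ)) = ((2 * n : ℕ) : ℤ) := by push_cast; ring
    rw [e1, e2, zpow_natCast, zpow_natCast, ← pow_mul, ← pow_mul]
    congr 1
    ring

theorem honda : Pool.Agent.W495.TB.S_honda := by
  intro hval p _ ν L _ _ _ _ j S hS
  exact main hval j S hS

end

end Pool.Agent.W902.TB
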